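import Mathlib

set_option autoImplicit false

namespace Pool.Agent.Results.MP_94225f_co.Unbounded

/-- The vertex set of `G` can be partitioned into `m` dominating sets: the fibres of `f`. -/
def DominatingPartition {V : Type} (G : SimpleGraph V) (m : ℕ) : Prop :=
  ∃ f : V → Fin m, ∀ i : Fin m, ∀ v : V, ∃ u : V, (u = v ∨ G.Adj v u) ∧ f u = i

/-- The vertex set of `G` can be partitioned into `m` totally dominating sets: the fibres
of `f`. -/
def TotallyDominatingPartition {V : Type} (G : SimpleGraph V) (m : ℕ) : Prop :=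
  ∃ f : V → Fin m, ∀ i : Fin m, ∀ v : V, ∃ u : V, G.Adj v u ∧ f u = i

/-- `d(G) = n`. -/
def DomaticNumberEq {V : Type} (G : SimpleGraph V) (n : ℕ) : Prop :=
  IsGreatest {m : ℕ | DominatingPartition G m} n

/-- `d_t(G) = n`. -/
def TotalDomaticNumberEq {V : Type} (G : SimpleGraph V) (n : ℕ) : Prop :=
  IsGreatest {m : ℕ | TotallyDominatingPartition G m} n

/-- Points of the cube. -/
abbrev Pt (k : ℕ) : Type := Fin 7 → Fin k

/-- The set `D` misses the slice of the cube where coordinate `i` equals `s`. -/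
def Misses {k : ℕ} (D : Finset (Pt k)) (i : Fin 7) (s : Fin k) : Prop :=
  ∀ a ∈ D, a i ≠ s

/-- The coordinates in whose direction `D` misses a slice. -/
noncomputable def poor {k : ℕ} (D : Finset (Pt k)) : Finset (Fin 7) := by
  classical
  exact Finset.univ.filter fun i => ∃ s : Fin k, Misses D i s

theorem mem_poor {k : ℕ} (D : Finset (Pt k)) (i : Fin 7) :
    i ∈ poor D ↔ ∃ s : Fin k, Misses D i s := by
  classical
  simp [poor]

/-- The sets that miss slices in at most two directions. -/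
abbrev Big (k : ℕ) : Type := {D : Finset (Pt k) // (poor D).card ≤ 2}

/-- The graph: a complete graph on the points of the cube, and for each big set `D` one further
vertex joined to the points of `D`. -/
def G (k : ℕ) : SimpleGraph (Pt k ⊕ Big k) where
  Adj x y := match x, y with
    | Sum.inl a, Sum.inl b => a ≠ b
    | Sum.inl a, Sum.inr D => a ∈ D.1
    | Sum.inr D, Sum.inl a => a ∈ D.1
    | Sum.inr _, Sum.inr _ => False
  symm := ⟨by
    rintro (a | D) (b | E) h
    · exact fun h1 => h h1.symm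
    · exact h
    · exact h
    · exact h⟩
  loopless := ⟨by
    rintro (a | D) h
    · exact h rfl
    · exact h⟩

theorem adj_ll {k : ℕ} (a b : Pt k) : (G k).Adj (Sum.inl a) (Sum.inl b) ↔ a ≠ b := Iff.rfl

theorem adj_lr {k : ℕ} (a : Pt k) (D : Big k) :
    (G k).Adj (Sum.inl a) (Sum.inr D) ↔ a ∈ D.1 := Iff.rfl

theorem adj_rl {k : ℕ} (a : Pt k) (D : Big k) :
    (G k).Adj (Sum.inr D) (Sum.inl a) ↔ a ∈ D.1 := Iff.rfl

theorem adj_rr {k : ℕ} (D E : Big k) : ¬ (G k).Adj (Sum.inr D) (Sum.inr E) := fun h => h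

/-- A coordinate that is not poor: every slice is met. -/
theorem rich_of_not_mem {k : ℕ} {D : Finset (Pt k)} {i : Fin 7} (h : i ∉ poor D) (s : Fin k) :
    ∃ a ∈ D, a i = s := by
  rw [mem_poor] at h
  by_contra hno
  refine h ⟨s, fun a ha has => hno ⟨a, ha, has⟩⟩

/-- If the points are split into three sets, one of them is big. -/
theorem exists_big {k : ℕ} (Q : Fin 3 → Finset (Pt k)) (hQ : ∀ a, ∃ j, a ∈ Q j) :
    ∃ j, (poor (Q j)).card ≤ 2 := by
  classical
  by_contra hno
  push Not at hno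
  obtain ⟨i0, h0⟩ : (poor (Q 0)).Nonempty := by
    rw [← Finset.card_pos]
    have := hno 0
    omega
  obtain ⟨i1, h1⟩ : ((poor (Q 1)) \ {i0}).Nonempty := by
    rw [← Finset.card_pos]
    have h2 := hno 1
    have h3 := Finset.le_card_sdiff {i0} (poor (Q 1))
    rw [Finset.card_singleton] at h3
    omega
  obtain ⟨i2, h2⟩ : ((poor (Q 2)) \ {i0, i1}).Nonempty := by
    rw [← Finset.card_pos]
    have h2 := hno 2
    have h3 := Finset.le_card_sdiff {i0, i1} (poor (Q 2))
    have h4 : ({i0, i1} : Finset (Fin 7)).card ≤ 2 := Finset.card_le_two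
    omega
  rw [Finset.mem_sdiff, Finset.mem_singleton] at h1
  rw [Finset.mem_sdiff, Finset.mem_insert, Finset.mem_singleton] at h2
  obtain ⟨s0, hs0⟩ := (mem_poor _ _).1 h0
  obtain ⟨s1, hs1⟩ := (mem_poor _ _).1 h1.1
  obtain ⟨s2, hs2⟩ := (mem_poor _ _).1 h2.1
  have h10 : i1 ≠ i0 := h1.2
  have h20 : i2 ≠ i0 := fun h => h2.2 (Or.inl h)
  have h21 : i2 ≠ i1 := fun h => h2.2 (Or.inr h)
  obtain ⟨j, hj⟩ := hQ (fun i => if i = i0 then s0 else if i = i1 then s1 else s2)
  have hj3 : j = 0 ∨ j = 1 ∨ j = 2 := by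
    have : ∀ j : Fin 3, j = 0 ∨ j = 1 ∨ j = 2 := by decide
    exact this j
  rcases hj3 with rfl | rfl | rfl
  · exact hs0 _ hj (by simp)
  · exact hs1 _ hj (by simp [h10])
  · exact hs2 _ hj (by simp [h20, h21])

/-- If the points are split into two sets, one of them is big. -/
theorem exists_big_two {k : ℕ} (Q : Fin 2 → Finset (Pt k)) (hQ : ∀ a, ∃ j, a ∈ Q j) :
    ∃ j, (poor (Q j)).card ≤ 2 := by
  obtain ⟨j, hj⟩ := exists_big (fun j : Fin 3 => Q (if j = 0 then 0 else 1)) (by
    intro a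
    obtain ⟨j, hj⟩ := hQ a
    have hj2 : j = 0 ∨ j = 1 := by
      have : ∀ j : Fin 2, j = 0 ∨ j = 1 := by decide
      exact this j
    rcases hj2 with rfl | rfl
    · exact ⟨0, by simpa using hj⟩
    · exact ⟨1, by simpa using hj⟩)
  exact ⟨_, hj⟩

/-- Merging classes. -/
theorem exists_merge (m n : ℕ) (hn : 0 < n) (h : n ≤ m) :
    ∃ g : Fin m → Fin n, Function.Surjective g := by
  refine ⟨fun j => ⟨min j.1 (n - 1), by omega⟩, ?_⟩
  intro i
  refine ⟨⟨i.1, by omega⟩, ?_⟩
  apply Fin.ext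
  simp only
  omega

theorem DominatingPartition.mono {V : Type} {G : SimpleGraph V} {m n : ℕ} (hn : 0 < n)
    (h : n ≤ m) (hm : DominatingPartition G m) : DominatingPartition G n := by
  obtain ⟨g, hg⟩ := exists_merge m n hn h
  obtain ⟨f, hf⟩ := hm
  refine ⟨fun v => g (f v), fun i v => ?_⟩
  obtain ⟨j, rfl⟩ := hg i
  obtain ⟨u, hu, hj⟩ := hf j v
  exact ⟨u, hu, congrArg g hj⟩

theorem TotallyDominatingPartition.mono {V : Type} {G : SimpleGraph V} {m n : ℕ} (hn : 0 < n)
    (h : n ≤ m) (hm : TotallyDominatingPartition G m) : TotallyDominatingPartition G n := by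
  obtain ⟨g, hg⟩ := exists_merge m n hn h
  obtain ⟨f, hf⟩ := hm
  refine ⟨fun v => g (f v), fun i v => ?_⟩
  obtain ⟨j, rfl⟩ := hg i
  obtain ⟨u, hu, hj⟩ := hf j v
  exact ⟨u, hu, congrArg g hj⟩

theorem not_three (k : ℕ) : ¬ DominatingPartition (G k) 3 := by
  classical
  rintro ⟨f, hf⟩
  obtain ⟨j, hj⟩ := exists_big
    (fun j : Fin 3 => Finset.univ.filter fun a : Pt k => f (Sum.inl a) = j) (by
      intro a
      exact ⟨f (Sum.inl a), by simp⟩)
  set D : Big k := ⟨_, hj⟩ with hD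
  have key : ∀ i : Fin 3, i = j ∨ i = f (Sum.inr D) := by
    intro i
    obtain ⟨u, hu, hi⟩ := hf i (Sum.inr D)
    rcases hu with hu | hu
    · rw [hu] at hi
      exact Or.inr hi.symm
    · rcases u with a | E
      · rw [adj_rl] at hu
        left
        rw [hD] at hu
        simp only [Finset.mem_filter, Finset.mem_univ, true_and] at hu
        rw [← hi, hu]
      · exact absurd hu (adj_rr D E)
  have h3 : ∀ x y : Fin 3, ∃ i : Fin 3, ¬ (i = x ∨ i = y) := by decide
  obtain ⟨i, hi⟩ := h3 j (f (Sum.inr D))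
  exact hi (key i)

theorem not_two_total (k : ℕ) : ¬ TotallyDominatingPartition (G k) 2 := by
  classical
  rintro ⟨f, hf⟩
  obtain ⟨j, hj⟩ := exists_big_two
    (fun j : Fin 2 => Finset.univ.filter fun a : Pt k => f (Sum.inl a) = j) (by
      intro a
      exact ⟨f (Sum.inl a), by simp⟩)
  set D : Big k := ⟨_, hj⟩ with hD
  have key : ∀ i : Fin 2, i = j := by
    intro i
    obtain ⟨u, hu, hi⟩ := hf i (Sum.inr D)
    rcases u with a | E
    · rw [adj_rl] at hu
      rw [hD] at hu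
      simp only [Finset.mem_filter, Finset.mem_univ, true_and] at hu
      rw [← hi, hu]
    · exact absurd hu (adj_rr D E)
  have h3 : ∀ x : Fin 2, ∃ i : Fin 2, ¬ i = x := by decide
  obtain ⟨i, hi⟩ := h3 j
  exact hi (key i)

theorem big_nonempty {k : ℕ} (hk : 0 < k) (D : Big k) : ∃ a, a ∈ D.1 := by
  have h1 : ∃ i, i ∉ poor D.1 := by
    by_contra hno
    push Not at hno
    have h2 : poor D.1 = Finset.univ := Finset.eq_univ_of_forall hno
    have h3 := D.2
    rw [h2] at h3
    simp at h3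
  obtain ⟨i, hi⟩ := h1
  obtain ⟨a, ha, _⟩ := rich_of_not_mem hi ⟨0, hk⟩
  exact ⟨a, ha⟩

/-- Changing a point so that coordinate `i` is `s`, away from itself. -/
theorem exists_other {k : ℕ} (hk : 2 ≤ k) (a : Pt k) (i : Fin 7) (s : Fin k) :
    ∃ b : Pt k, a ≠ b ∧ b i = s := by
  classical
  have h1 : ∀ i : Fin 7, ∃ j : Fin 7, j ≠ i := by decide
  obtain ⟨j, hj⟩ := h1 i
  have h2 : ∃ t : Fin k, t ≠ a j := by
    by_cases h : (a j).1 = 0
    · refine ⟨⟨1, by omega⟩, fun h3 => ?_⟩
      rw [← h3] at h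
      simp at h
    · refine ⟨⟨0, by omega⟩, fun h3 => h ?_⟩
      rw [← h3]
  obtain ⟨t, ht⟩ := h2
  refine ⟨fun l => if l = i then s else t, ?_, by simp⟩
  intro hab
  apply ht
  rw [congrFun hab j]
  simp [hj]

theorem no_isolated {k : ℕ} (hk : 2 ≤ k) (v : Pt k ⊕ Big k) : ∃ u, (G k).Adj v u := by
  rcases v with a | D
  · obtain ⟨b, hb, _⟩ := exists_other hk a 0 (a 0)
    exact ⟨Sum.inl b, hb⟩
  · obtain ⟨a, ha⟩ := big_nonempty (by omega) D
    exact ⟨Sum.inl a, ha⟩

theorem two_dom {k : ℕ} (hk : 2 ≤ k) : DominatingPartition (G k) 2 := by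
  classical
  set a0 : Pt k := fun _ => ⟨0, by omega⟩ with ha0
  refine ⟨fun v => match v with
    | Sum.inl a => if a = a0 then 0 else 1
    | Sum.inr D => if a0 ∈ D.1 then 1 else 0, ?_⟩
  intro i v
  have hi : i = 0 ∨ i = 1 := by
    have : ∀ i : Fin 2, i = 0 ∨ i = 1 := by decide
    exact this i
  rcases v with a | D
  · rcases hi with rfl | rfl
    · by_cases h : a = a0
      · exact ⟨Sum.inl a, Or.inl rfl, by simp [h]⟩
      · exact ⟨Sum.inl a0, Or.inr h, by simp⟩
    · by_cases h : a = a0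
      · obtain ⟨b, hb, _⟩ := exists_other hk a 0 (a 0)
        refine ⟨Sum.inl b, Or.inr hb, ?_⟩
        have h1 : b ≠ a0 := fun h2 => hb (by rw [h, h2])
        simp [h1]
      · exact ⟨Sum.inl a, Or.inl rfl, by simp [h]⟩
  · rcases hi with rfl | rfl
    · by_cases h : a0 ∈ D.1
      · exact ⟨Sum.inl a0, Or.inr h, by simp⟩
      · exact ⟨Sum.inr D, Or.inl rfl, by simp [h]⟩
    · by_cases h : a0 ∈ D.1
      · exact ⟨Sum.inr D, Or.inl rfl, by simp [h]⟩
      · obtain ⟨a, ha⟩ := big_nonempty (by omega) D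
        refine ⟨Sum.inl a, Or.inr ha, ?_⟩
        have h1 : a ≠ a0 := by
          rintro rfl
          exact h ha
        simp [h1]

/-- The Paley tournament on seven vertices as a Boolean matrix. -/
def T (i j : Fin 7) : Bool := decide (i - j = 1 ∨ i - j = 2 ∨ i - j = 4)

theorem T_cols : ∀ l l' : Fin 7, ∃ j : Fin 7, T j l = true ∧ T j l' = true := by decide

theorem T_rows : ∀ i i' : Fin 7, ∃ l : Fin 7, T i l = false ∧ T i' l = false := by decide

/-- A set with at most two elements is contained in a pair. -/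
theorem sub_pair (S : Finset (Fin 7)) (hS : S.card ≤ 2) :
    ∃ x y : Fin 7, ∀ z ∈ S, z = x ∨ z = y := by
  rcases Nat.lt_or_ge S.card 2 with h | h
  · rcases Nat.lt_or_ge S.card 1 with h1 | h1
    · refine ⟨0, 0, fun z hz => ?_⟩
      have : 0 < S.card := Finset.card_pos.2 ⟨z, hz⟩
      omega
    · obtain ⟨a, ha⟩ := Finset.card_eq_one.1 (by omega : S.card = 1)
      refine ⟨a, a, fun z hz => ?_⟩
      rw [ha, Finset.mem_singleton] at hz
      exact Or.inl hz
  · obtain ⟨a, b, _, hab⟩ := Finset.card_eq_two.1 (by omega : S.card = 2)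
    refine ⟨a, b, fun z hz => ?_⟩
    rw [hab, Finset.mem_insert, Finset.mem_singleton] at hz
    exact hz

theorem exists_row {k : ℕ} (D : Big k) : ∃ j : Fin 7, ∀ l ∈ poor D.1, T j l = true := by
  obtain ⟨x, y, hxy⟩ := sub_pair (poor D.1) D.2
  obtain ⟨j, hx, hy⟩ := T_cols x y
  refine ⟨j, fun l hl => ?_⟩
  rcases hxy l hl with rfl | rfl
  · exact hx
  · exact hy

theorem exists_col {k : ℕ} (D : Big k) : ∃ l : Fin 7, ∀ i ∈ poor D.1, T i l = false := by
  obtain ⟨x, y, hxy⟩ := sub_pair (poor D.1) D.2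
  obtain ⟨l, hx, hy⟩ := T_rows x y
  refine ⟨l, fun i hi => ?_⟩
  rcases hxy i hi with rfl | rfl
  · exact hx
  · exact hy

theorem total {k : ℕ} (hk : 2 ≤ k) :
    TotallyDominatingPartition (SimpleGraph.boxProd (G k) (G k)) k := by
  classical
  choose α hα using fun D : Big k => exists_row D
  choose β hβ using fun D : Big k => exists_col D
  refine ⟨fun v => match v with
    | (Sum.inl a, Sum.inl _) => a 0
    | (Sum.inl a, Sum.inr D) => a (α D)
    | (Sum.inr D, Sum.inl a) => a (β D)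
    | (Sum.inr _, Sum.inr _) => ⟨0, by omega⟩, ?_⟩
  rintro s ⟨v | D, w | E⟩
  · obtain ⟨b, hb, hs⟩ := exists_other hk v 0 s
    exact ⟨(Sum.inl b, Sum.inl w), SimpleGraph.boxProd_adj.2 (Or.inl ⟨hb, rfl⟩), hs⟩
  · obtain ⟨b, hb, hs⟩ := exists_other hk v (α E) s
    exact ⟨(Sum.inl b, Sum.inr E), SimpleGraph.boxProd_adj.2 (Or.inl ⟨hb, rfl⟩), hs⟩
  · obtain ⟨b, hb, hs⟩ := exists_other hk w (β D) s
    exact ⟨(Sum.inr D, Sum.inl b), SimpleGraph.boxProd_adj.2 (Or.inr ⟨hb, rfl⟩), hs⟩
  · by_cases hT : T (α E) (β D) = true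
    · have h1 : α E ∉ poor D.1 := by
        intro h2
        have h3 := hβ D _ h2
        rw [hT] at h3
        exact Bool.noConfusion h3
      obtain ⟨a, ha, hs⟩ := rich_of_not_mem h1 s
      exact ⟨(Sum.inl a, Sum.inr E), SimpleGraph.boxProd_adj.2 (Or.inl ⟨ha, rfl⟩), hs⟩
    · have h1 : β D ∉ poor E.1 := fun h2 => hT (hα E _ h2)
      obtain ⟨a, ha, hs⟩ := rich_of_not_mem h1 s
      exact ⟨(Sum.inr D, Sum.inl a), SimpleGraph.boxProd_adj.2 (Or.inr ⟨ha, rfl⟩), hs⟩

/-- The total domatic number of a finite nonempty graph exists as soon as some partition does. -/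
theorem exists_greatest {V : Type} [Fintype V] [Nonempty V] (G : SimpleGraph V) (k : ℕ)
    (h : TotallyDominatingPartition G k) : ∃ n, k ≤ n ∧ TotalDomaticNumberEq G n := by
  classical
  have hb : ∀ m, TotallyDominatingPartition G m → m ≤ Fintype.card V := by
    rintro m ⟨f, hf⟩
    obtain ⟨v⟩ := ‹Nonempty V›
    have hs : Function.Surjective f := by
      intro i
      obtain ⟨u, _, hu⟩ := hf i v
      exact ⟨u, hu⟩
    have := Fintype.card_le_of_surjective f hs
    rwa [Fintype.card_fin] at this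
  refine ⟨Nat.findGreatest (fun m => TotallyDominatingPartition G m) (Fintype.card V),
    Nat.le_findGreatest (hb k h) h, ?_, ?_⟩
  · exact Nat.findGreatest_spec (P := fun m => TotallyDominatingPartition G m) (hb k h) h
  · intro m hm
    exact Nat.le_findGreatest (hb m hm) hm

/-- For every `N` there is a finite graph `G` without isolated vertices with `d(G) = 2` and
`d_t(G) = 1` for which `d_t(G □ G) ≥ N`. -/
theorem result (N : ℕ) :
    ∃ (V : Type) (_ : Fintype V) (G : SimpleGraph V),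
      (∀ v : V, ∃ u : V, G.Adj v u) ∧
      DomaticNumberEq G 2 ∧
      TotalDomaticNumberEq G 1 ∧
      ∃ n : ℕ, N ≤ n ∧ TotalDomaticNumberEq (SimpleGraph.boxProd G G) n := by
  classical
  have hk : 2 ≤ N + 2 := by omega
  have : Nonempty (Pt (N + 2)) := ⟨fun _ => ⟨0, by omega⟩⟩
  refine ⟨Pt (N + 2) ⊕ Big (N + 2), inferInstance, G (N + 2), no_isolated hk, ?_, ?_, ?_⟩
  · refine ⟨two_dom hk, ?_⟩
    intro m hm
    by_contra hlt
    exact not_three (N + 2) (DominatingPartition.mono (by omega) (by omega) hm)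
  · refine ⟨?_, ?_⟩
    · refine ⟨fun _ => 0, fun i v => ?_⟩
      obtain ⟨u, hu⟩ := no_isolated hk v
      exact ⟨u, hu, Subsingleton.elim _ _⟩
    · intro m hm
      by_contra hlt
      exact not_two_total (N + 2) (TotallyDominatingPartition.mono (by omega) (by omega) hm)
  · obtain ⟨n, hn, h⟩ := exists_greatest _ _ (total (k := N + 2) hk)
    exact ⟨n, by omega, h⟩

end Pool.Agent.Results.MP_94225f_co.Unbounded
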